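import Pool.Agent.H930.VA.LogTwo
import Pool.Agent.H930.VA.Merge
import Pool.Agent.H930.VA.Separate

/-!
# Fujita's very ampleness conjecture for weighted complete intersections of large degrees, in any
codimension and with arbitrary weights

Let `X ⊂ P(a_0, …, a_(n+c))` be defined by weighted homogeneous polynomials `f_1, …, f_c` of degrees
`d_j`, with arbitrary weights and arbitrary singularities, such that the action of `ℂ*` with weights
`a_i` is free on the affine cone over `X` without its vertex (`hfree`): then `O_X(1)` is invertible,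
`dim X = n` and `K_X = O_X(∑ d_j - ∑ a_i)`. Suppose that `2 lcm(a_i, a_l) ≤ d_j` for any two
variables `x_i`, `x_l` (equal or not) which occur in `f_j`. Then `K_X + A_1 + … + A_m` is very ample
for all `m ≥ n + 2` and `A_r = O_X(k_r)`, `k_r ≥ 1`: its sections, given by the forms of degree
`e = ∑ d_j - ∑ a_i + ∑ k_r`, have no base point on `X`, separate the points of `X`, and separate the
tangent vectors at the points of `X` (also those which are not tangent to `X`).

Proof. Let `v` be a point of the cone and `S` its support, `U` its complement. We start with the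
clusters `{i}`, `i ∈ S`, with the weights `g = a_i`, and merge successively the two clusters whose
weights have the smallest least common multiple `L`; the weight of the union is the greatest common
divisor of the two weights. Then `t` is in the semigroup generated by the weights `a_i`, `i ∈ S`, if
`t > ∑ L - ∑_S a_i`.

At every stage consider the points which arise from `v` by the action of one parameter for every
cluster, and by changing the coordinates in `U`. An equation which sees two clusters or a
coordinate in `U` of weight `x` has degree at least `2 L` or `2 x`. As the action is free, we see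
that for all prime powers `q` and all `x` the numbers in `{L} ∪ {a_i : i ∈ U}` which are at least
`x` and divisible by `q` are at most as many as the degrees `d_j` which are at least `2 x` and
divisible by `q`. This implies (`Pool.Agent.H930.VA.two_sum_le`), with the function
`(t - 1) / log t`, that
`∑ (L - 1) + ∑_U (a_i - 1) + (b - 1) ≤ ∑ (d_j - 1)` for the largest element `b` of
`{L} ∪ {a_i : i ∈ U}`. Hence `e - t` is in the semigroup for all `t ≤ b`, in particular `e - a_i`
for all `i`. Moreover, if all the monomials of degree `e` in the variables of `S` have the same value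
at a family `z` of elements of an abelian group then `z_i = τ ^ a_i`: by induction on the number of
clusters, as `e - L` is in the semigroup the two elements `z_s`, `z_t` of the clusters which are
merged satisfy the relation `z_s ^ (L / g_s) = z_t ^ (L / g_t)`, and so they have a common root.
For the multiplicative group this separates points, and for the additive group tangent vectors.
-/

set_option autoImplicit false

namespace Pool.Agent.Results.MP_e09b14_ag.LargeDegrees

open MvPolynomial Finset Pool.Agent.H930.Fuj Pool.Agent.H930.VA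

/-- The degree `e` is very ample at every point of the cone. -/
theorem exists_data {n c : ℕ} {a : Fin (n + c + 1) → ℕ} (ha : ∀ i, 0 < a i)
    {d : Fin c → ℕ} (hd : ∀ j, 0 < d j)
    {f : Fin c → MvPolynomial (Fin (n + c + 1)) ℂ} (hf : ∀ j, IsWeightedHomogeneous a (f j) (d j))
    (hlcm : ∀ j, ∀ i ∈ (f j).vars, ∀ l ∈ (f j).vars, 2 * Nat.lcm (a i) (a l) ≤ d j)
    (hfree : ∀ v : Fin (n + c + 1) → ℂ, v ≠ 0 → (∀ j, eval v (f j) = 0) →
      ∀ g : ℕ, (∀ i, v i ≠ 0 → g ∣ a i) → g = 1)
    {v : Fin (n + c + 1) → ℂ} (hv : v ≠ 0) (hfv : ∀ j, eval v (f j) = 0) (e : ℤ)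
    (he : (∑ j, d j : ℤ) - ∑ i, (a i : ℤ) + (n + 2) ≤ e) :
    (∀ i, ∃ w : Fin (n + c + 1) → ℕ, (∀ l, w l ≠ 0 → v l ≠ 0) ∧
      e = a i + ∑ l, (w l : ℤ) * a l) ∧
    (∀ (G : Type) [CommGroup G] (z : Fin (n + c + 1) → G) (c' : G),
      (∀ w : Fin (n + c + 1) → ℕ, (∀ l, w l ≠ 0 → v l ≠ 0) → e = ∑ l, (w l : ℤ) * a l →
        ∏ l, z l ^ w l = c') → ∃ τ : G, ∀ l, v l ≠ 0 → z l = τ ^ a l) := by
  classical
  set R : Finset (Fin (n + c + 1)) := univ.filter fun i => v i ≠ 0 with hR
  set U : Finset (Fin (n + c + 1)) := univ.filter fun i => ¬ v i ≠ 0 with hU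
  have hmemR : ∀ i, i ∈ R ↔ v i ≠ 0 := fun i => by simp [hR]
  have hR0 : R.Nonempty := by
    obtain ⟨i, hi⟩ := Function.ne_iff.1 hv
    exact ⟨i, by simpa [hR] using hi⟩
  obtain ⟨n', hn'⟩ : ∃ n', R.card = n' + 1 := ⟨R.card - 1, by
    have := hR0.card_pos
    omega⟩
  have hs : State a v R id a := {
    mem := fun i hi => by simpa [hR] using hi
    ne := fun t ht => (mem_filter.1 ht).2
    fix := fun t _ => rfl
    dvd := fun i _ => dvd_rfl
    pos := fun t _ => ha t }
  have hgcd : ∀ q : ℕ, (∀ t ∈ R, q ∣ a t) → q = 1 :=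
    fun q hq => hfree v hv hfv q fun i hi => hq i (hs.mem i hi)
  obtain ⟨L, hL1, hL2, hLa, hLb, -, hLe, hLg⟩ :=
    Pool.Agent.H930.VA.exists_multiset ha hd hf hfv hlcm hfree n' R id a hs hn' hgcd
  have hsplit : ∀ F : Fin (n + c + 1) → ℤ, ∑ i ∈ R, F i + ∑ i ∈ U, F i = ∑ i, F i :=
    fun F => Finset.sum_filter_add_sum_filter_not _ _ _
  have hcard : R.card + U.card = n + c + 1 := by
    have := Finset.card_filter_add_card_filter_not (s := (univ : Finset (Fin (n + c + 1))))
      (fun i => v i ≠ 0)
    rwa [Finset.card_univ, Fintype.card_fin] at this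
  -- the weight of the only element of the support
  have hone : L.card = 0 → ∀ i ∈ R, a i = 1 := by
    intro h0 i hi
    apply hgcd
    intro t ht
    have h1 : R.card = 1 := by omega
    obtain ⟨y, hy⟩ := Finset.card_eq_one.1 h1
    rw [hy, mem_singleton] at hi ht
    rw [hi, ht]
  set X : Multiset ℕ := L + U.val.map a with hX
  have hXpos : ∀ t ∈ X, 0 < t := by
    intro t ht
    rcases Multiset.mem_add.1 ht with h | h
    · exact hL1 t h
    · obtain ⟨i, -, rfl⟩ := Multiset.mem_map.1 h
      exact ha i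
  -- the bound
  have hbound : ∀ b ∈ X, (L.sum : ℤ) - ∑ i ∈ R, (a i : ℤ) + 1 + b ≤ e := by
    intro b hb
    obtain ⟨M, hM, hMmax⟩ : ∃ M ∈ X, ∀ t ∈ X, t ≤ M := by
      obtain ⟨M, hM, h⟩ := Finset.exists_max_image X.toFinset id ⟨b, Multiset.mem_toFinset.2 hb⟩
      exact ⟨M, Multiset.mem_toFinset.1 hM, fun t ht => h t (Multiset.mem_toFinset.2 ht)⟩
    have hkey := two_sum_le X ((univ : Finset (Fin c)).val.map d) hXpos
      (by
        intro t ht
        obtain ⟨j, -, rfl⟩ := Multiset.mem_map.1 ht
        exact hd j)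
      (by
        intro p k x hp hk
        have h1 := hLb p k x hp hk
        rw [hX, Multiset.countP_add, Multiset.countP_map, Multiset.countP_map]
        have h2 : (Multiset.filter (fun i => p ^ k ∣ a i ∧ x ≤ a i) U.val).card =
            (univ.filter fun u => v u = 0 ∧ p ^ k ∣ a u ∧ x ≤ a u).card := by
          rw [← Finset.filter_val, Finset.card_val, hU, Finset.filter_filter]
          congr 1
          apply Finset.filter_congr
          intro i _
          simp only [not_not]
        have h3 : (Multiset.filter (fun j => p ^ k ∣ d j ∧ 2 * x ≤ d j)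
            (univ : Finset (Fin c)).val).card =
            (univ.filter fun j => p ^ k ∣ d j ∧ 2 * x ≤ d j).card := by
          rw [← Finset.filter_val, Finset.card_val]
        rw [h2, h3]
        exact h1) hM hMmax
    rw [hX, Multiset.sum_add, Multiset.card_add, Multiset.card_map, Multiset.card_map,
      Finset.card_val, Finset.card_val, Finset.card_univ, Fintype.card_fin] at hkey
    change L.sum + ∑ i ∈ U, a i + c + M ≤ ∑ j, d j + (L.card + U.card) + 1 at hkey
    have hkey' : (L.sum : ℤ) + ∑ i ∈ U, (a i : ℤ) + c + M ≤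
        ∑ j, (d j : ℤ) + (L.card + U.card) + 1 := by
      exact_mod_cast hkey
    have hsa := hsplit fun i => (a i : ℤ)
    have hcard' : ((L.card : ℤ) + 1) + U.card = n + c + 1 := by
      rw [hn', ← hL2] at hcard
      exact_mod_cast hcard
    have hbM : (b : ℤ) ≤ M := by exact_mod_cast hMmax b hb
    linarith
  have hboundL : ∀ l ∈ L, (L.sum : ℤ) - ∑ i ∈ R, (a i : ℤ) + 1 + l ≤ e :=
    fun l hl => hbound l (Multiset.mem_add.2 (Or.inl hl))
  have hboundA : ∀ i, (L.sum : ℤ) - ∑ i ∈ R, (a i : ℤ) + 1 + a i ≤ e := by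
    intro i
    by_cases hi : v i = 0
    · refine hbound (a i) (Multiset.mem_add.2 (Or.inr (Multiset.mem_map.2 ⟨i, ?_, rfl⟩)))
      rw [Finset.mem_val, hU, mem_filter]
      exact ⟨mem_univ _, by simpa using hi⟩
    have hiR : i ∈ R := (hmemR i).2 hi
    by_cases hL0 : L.card = 0
    · have hai := hone hL0 i hiR
      by_cases hX0 : X = 0
      · -- there are no other coordinates
        have h1 : X.card = 0 := by rw [hX0]; rfl
        rw [hX, Multiset.card_add, Multiset.card_map, Finset.card_val] at h1
        have hU0 : U = ∅ := Finset.card_eq_zero.1 (by omega)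
        have hR1 : R.card = 1 := by omega
        have h2 : n = 0 := by omega
        have h3 : c = 0 := by omega
        have h4 : L = 0 := Multiset.card_eq_zero.1 hL0
        have hsa := hsplit fun i => (a i : ℤ)
        rw [hU0, Finset.sum_empty, add_zero] at hsa
        have h5 : (0 : ℤ) ≤ ∑ j, (d j : ℤ) := Finset.sum_nonneg fun j _ => by positivity
        have h6 : ((n : ℕ) : ℤ) = 0 := by rw [h2]; rfl
        rw [h4, Multiset.sum_zero, hai, hsa]
        push_cast
        linarith
      · obtain ⟨b, hb⟩ := Multiset.exists_mem_of_ne_zero hX0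
        have h1 := hbound b hb
        have h2 : ((1 : ℕ) : ℤ) ≤ b := by exact_mod_cast hXpos b hb
        rw [hai]
        linarith
    · obtain ⟨l, hl, hil⟩ := hLe (by omega) i hiR
      have h1 := hboundL l hl
      have h2 : (a i : ℤ) ≤ l := by exact_mod_cast hil
      linarith
  refine ⟨?_, ?_⟩
  · intro i
    obtain ⟨w, hw⟩ := hLa (e - a i) (by linarith [hboundA i])
    refine ⟨fun i => if v i ≠ 0 then w i else 0, ?_, ?_⟩
    · intro i hi h0
      apply hi
      simp [h0]
    · have h1 : ∑ l, (((if v l ≠ 0 then w l else 0 : ℕ)) : ℤ) * a l = ∑ t ∈ R, (w t : ℤ) * a t := by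
        rw [hR, Finset.sum_filter]
        refine Finset.sum_congr rfl fun i _ => ?_
        by_cases hi : v i = 0 <;> simp [hi]
      rw [h1, ← hw]
      ring
  · intro G _ z c' hz
    obtain ⟨τ, hτ⟩ := hLg G z c' e hboundL (by
      intro w hw
      rw [← hz (fun i => if v i ≠ 0 then w i else 0)]
      · rw [hR, Finset.prod_filter]
        refine Finset.prod_congr rfl fun i _ => ?_
        by_cases hi : v i = 0 <;> simp [hi]
      · intro i hi h0
        apply hi
        simp [h0]
      · rw [hw, hR, Finset.sum_filter]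
        refine Finset.sum_congr rfl fun i _ => ?_
        by_cases hi : v i = 0 <;> simp [hi])
    exact ⟨τ, fun l hl => hτ l ((hmemR l).2 hl)⟩

/-- **Fujita's very ampleness conjecture for weighted complete intersections of any codimension**,
with arbitrary weights and singularities, such that `2 lcm(a_i, a_l) ≤ d_j` for any two variables
`x_i`, `x_l` which occur in `f_j`: `K_X + A_1 + … + A_m` is very ample for all `m ≥ n + 2`. -/
theorem result (n c : ℕ) (a : Fin (n + c + 1) → ℕ) (ha : ∀ i, 0 < a i)
    (d : Fin c → ℕ) (hd : ∀ j, 0 < d j)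
    (f : Fin c → MvPolynomial (Fin (n + c + 1)) ℂ) (hf : ∀ j, IsWeightedHomogeneous a (f j) (d j))
    -- the least common multiples of the weights of any two variables of an equation
    (hlcm : ∀ j, ∀ i ∈ (f j).vars, ∀ l ∈ (f j).vars, 2 * Nat.lcm (a i) (a l) ≤ d j)
    -- the action of `ℂ*` on the cone is free
    (hfree : ∀ v : Fin (n + c + 1) → ℂ, v ≠ 0 → (∀ j, eval v (f j) = 0) →
      ∀ g : ℕ, (∀ i, v i ≠ 0 → g ∣ a i) → g = 1)
    (m : ℕ) (hm : n + 2 ≤ m) (k : Fin m → ℕ) (hk : ∀ r, 1 ≤ k r) :
    ∃ e : ℕ, e + ∑ i, a i = ∑ j, d j + ∑ r, k r ∧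
      -- no base points
      (∀ v : Fin (n + c + 1) → ℂ, v ≠ 0 → (∀ j, eval v (f j) = 0) →
        ∃ s : MvPolynomial (Fin (n + c + 1)) ℂ, IsWeightedHomogeneous a s e ∧ eval v s ≠ 0) ∧
      -- points are separated
      (∀ v w : Fin (n + c + 1) → ℂ, v ≠ 0 → w ≠ 0 → (∀ j, eval v (f j) = 0) →
        (∀ j, eval w (f j) = 0) → (¬ ∃ t : ℂ, t ≠ 0 ∧ ∀ i, w i = t ^ a i * v i) →
        ∃ s : MvPolynomial (Fin (n + c + 1)) ℂ, IsWeightedHomogeneous a s e ∧
          eval v s = 0 ∧ eval w s ≠ 0) ∧
      -- tangent vectors are separated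
      (∀ v u : Fin (n + c + 1) → ℂ, v ≠ 0 → (∀ j, eval v (f j) = 0) →
        (¬ ∃ τ : ℂ, ∀ i, u i = τ * (a i * v i)) →
        ∃ s : MvPolynomial (Fin (n + c + 1)) ℂ, IsWeightedHomogeneous a s e ∧
          eval v s = 0 ∧ ∑ i, eval v (pderiv i s) * u i ≠ 0) := by
  classical
  have hsumk : ((n : ℤ) + 2) ≤ ∑ r, (k r : ℤ) := by
    have h1 : m ≤ ∑ r, k r := by
      calc m = ∑ _r : Fin m, 1 := by simp
        _ ≤ ∑ r, k r := Finset.sum_le_sum fun r _ => hk r
    have h2 : n + 2 ≤ ∑ r, k r := hm.trans h1
    exact_mod_cast h2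
  set e' : ℤ := ∑ j, (d j : ℤ) - ∑ i, (a i : ℤ) + ∑ r, (k r : ℤ) with he'
  have hdata : ∀ v : Fin (n + c + 1) → ℂ, v ≠ 0 → (∀ j, eval v (f j) = 0) → _ :=
    fun v hv hfv => exists_data ha hd hf hlcm hfree hv hfv e' (by rw [he']; linarith)
  -- `e'` is nonnegative
  have he0 : 0 ≤ e' := by
    obtain ⟨v₀, hv₀, hfv₀⟩ := Pool.Agent.H552R3.Tsen.exists_common_zero f
      (fun j => eval_zero_of_weighted (hd j) (hf j)) (by
        rw [Fintype.card_fin, Fintype.card_fin]; omega)
    obtain ⟨w, -, hw⟩ := (hdata v₀ hv₀ hfv₀).1 0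
    rw [hw]
    have h1 : (0 : ℤ) ≤ ∑ i, (w i : ℤ) * a i := Finset.sum_nonneg fun i _ => by positivity
    positivity
  obtain ⟨e, hee⟩ := Int.eq_ofNat_of_zero_le he0
  have hample : ∀ v : Fin (n + c + 1) → ℂ, v ≠ 0 → (∀ j, eval v (f j) = 0) → Ample a e v := by
    intro v hv hfv
    obtain ⟨h1, h2⟩ := hdata v hv hfv
    refine ⟨?_, ?_⟩
    · intro i
      obtain ⟨w, hw, hwe⟩ := h1 i
      refine ⟨w, hw, ?_⟩
      rw [hee] at hwe
      exact_mod_cast hwe
    · intro G _ z c' hz
      refine h2 G z c' fun w hw hwe => hz w hw ?_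
      rw [hee] at hwe
      exact_mod_cast hwe
  refine ⟨e, ?_, ?_, ?_, ?_⟩
  · have h1 : (e : ℤ) + ∑ i, (a i : ℤ) = ∑ j, (d j : ℤ) + ∑ r, (k r : ℤ) := by
      rw [← hee, he']; ring
    exact_mod_cast h1
  · exact fun v hv hfv => (hample v hv hfv).base hv
  · exact fun v w hv hw hfv hfw hne => (hample v hv hfv).points (hample w hw hfw) hv hw hne
  · exact fun v u hv hfv hne => (hample v hv hfv).tangent hv u hne

end Pool.Agent.Results.MP_e09b14_ag.LargeDegrees
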